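import Pool.Agent.H90.G.S8.H281R3.HT.Frm

/-!
# Rational frames of the cohomology of a product: the product
-/

open CategoryTheory AlgebraicGeometry

universe u v w

namespace Pool.Agent.H281R3.HT

open Pool.Agent.H914 Pool.Agent.H914.VarClass Pool.Agent.H914.VarClass.Obj
  Pool.Agent.H914.WeilCohomology

variable {k : Type u} [Field k] {𝒱 : VarClass k} {ops : CycleOps 𝒱}
  {W : WeilCohomology.{u, v} ops} {X X' Y Z : 𝒱.Obj}

/-- The span of the external products of transcendental classes. -/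
noncomputable def TT (W : WeilCohomology.{u, v} ops) (X X' : 𝒱.Obj) : Submodule W.K (W.H (X.prod X')) :=
  Submodule.span W.K {y | ∃ t ∈ transcendental W X, ∃ t' ∈ transcendental W X',
    y = W.map (fst X X') t * W.map (snd X X') t'}

/-- Data of a basis of the external products of transcendental classes. -/
structure PairData (W : WeilCohomology.{u, v} ops) (X X' : 𝒱.Obj) where
  /-- the size of the basis -/
  N : ℕ
  /-- the basis -/
  v : Fin N → W.H (X.prod X')
  /-- the norms -/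
  q : Fin N → ℚ
  /-- the codimension -/
  b : ℕ

/-- Properties of such a basis. -/
structure PairBasis (W : WeilCohomology.{u, v} ops) (X X' : 𝒱.Obj) (B : PairData W X X') :
    Prop where
  mem : ∀ l, B.v l ∈ algClasses W (X.prod X') B.b
  tt : ∀ l, B.v l ∈ TT W X X'
  pos : ∀ l, 0 < B.q l
  vv : ∀ l, W.tr _ (B.v l * B.v l) = (((-1) ^ B.b * B.q l : ℚ) : W.K)
  vv0 : ∀ l l', l ≠ l' → W.tr _ (B.v l * B.v l') = 0
  span : ∀ t ∈ transcendental W X, ∀ t' ∈ transcendental W X',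
    W.map (fst X X') t * W.map (snd X X') t' ∈ Submodule.span W.K (Set.range B.v)

/-- The operator attached to multipliers and coordinates. -/
noncomputable def Psi (W : WeilCohomology.{u, v} ops) {X X' Y Z : 𝒱.Obj} (n : W.H Y) (n' : W.H Z)
    (g : Y ⟶ X) (g' : Z ⟶ X') : W.H (X.prod X') →ₗ[W.K] W.H (Y.prod Z) :=
  LinearMap.mulLeft W.K (W.map (fst Y Z) n * W.map (snd Y Z) n') ∘ₗ
    (W.map (Obj.lift (fst Y Z ≫ g) (snd Y Z ≫ g'))).toLinearMap

lemma psi_apply (n : W.H Y) (n' : W.H Z) (g : Y ⟶ X) (g' : Z ⟶ X') (v : W.H (X.prod X')) :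
    Psi W n n' g g' v = W.map (fst Y Z) n * W.map (snd Y Z) n' *
      W.map (Obj.lift (fst Y Z ≫ g) (snd Y Z ≫ g')) v := rfl

lemma psi_tmul {n : W.H Y} {n' : W.H Z} {i : ℕ} (hn' : n' ∈ algClasses W Z i)
    (g : Y ⟶ X) (g' : Z ⟶ X') (t : W.H X) (s : W.H X') :
    Psi W n n' g g' (W.map (fst X X') t * W.map (snd X X') s) =
      W.map (fst Y Z) (n * W.map g t) * W.map (snd Y Z) (n' * W.map g' s) := by
  rw [psi_apply, map_mul, ← W.map_comp, ← W.map_comp, Obj.lift_fst, Obj.lift_snd, W.map_comp,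
    W.map_comp, map_mul, map_mul]
  have h1 : W.map (snd Y Z) n' * W.map (fst Y Z) (W.map g t) =
      W.map (fst Y Z) (W.map g t) * W.map (snd Y Z) n' :=
    W.even_comm (W.map_mem _ (alg_gr hn')) _
  rw [mul_assoc, ← mul_assoc (W.map (snd Y Z) n'), h1]
  simp only [mul_assoc]

section wop

variable {D : Y.Cycles} {E : Z.Cycles} {f : Module.End W.K (W.H Y)} {f' : Module.End W.K (W.H Z)}

/-- The Weyl operator on a product. -/
lemma wop_prod (t : Sl2 (wt (W.isInternal Y) Y.dim) (LinearMap.mulLeft W.K (W.cl Y D)) f)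
    (t' : Sl2 (wt (W.isInternal Z) Z.dim) (LinearMap.mulLeft W.K (W.cl Z E)) f')
    (hE : Z.IsCyc 1 E) (a : W.H Y) (b : W.H Z) :
    wop W (Y.prod Z) (ops.pull (fst Y Z) D + ops.pull (snd Y Z) E) (extSum W f f')
      (W.map (fst Y Z) a * W.map (snd Y Z) b) =
      W.map (fst Y Z) (wop W Y D f a) * W.map (snd Y Z) (wop W Z E f' b) := by
  rw [wop, mulLeft_prod hE, wey_prod t.nil_e t.nil_f t'.nil_e t'.nil_f, extOp_tmul]

lemma form_mul (t : Sl2 (wt (W.isInternal Y) Y.dim) (LinearMap.mulLeft W.K (W.cl Y D)) f)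
    (t' : Sl2 (wt (W.isInternal Z) Z.dim) (LinearMap.mulLeft W.K (W.cl Z E)) f')
    (hE : Z.IsCyc 1 E) {i j : ℕ} {A A' : W.H Y} {B B' : W.H Z} (hB : B ∈ W.gr Z j)
    (hA' : wop W Y D f A' ∈ W.gr Y i) :
    W.tr _ (W.map (fst Y Z) A * W.map (snd Y Z) B *
      wop W (Y.prod Z) (ops.pull (fst Y Z) D + ops.pull (snd Y Z) E) (extSum W f f')
      (W.map (fst Y Z) A' * W.map (snd Y Z) B')) =
      (-1 : W.K) ^ (j * i) * (W.tr Y (A * wop W Y D f A') * W.tr Z (B * wop W Z E f' B')) := by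
  rw [wop_prod t t' hE, tmul_mul hB hA', map_smul, W.tr_prod, smul_eq_mul]

end wop

lemma neg_one_pow_even (a b : ℕ) : (-1 : W.K) ^ (2 * a * b) = 1 := by
  rw [mul_assoc, pow_mul]; simp

lemma neg_one_pow_even' (a b : ℕ) : (-1 : W.K) ^ (a * (2 * b)) = 1 := by
  rw [show a * (2 * b) = 2 * a * b by ring]; exact neg_one_pow_even a b

lemma neg_one_pow_odd (a b x y : ℕ) :
    (-1 : W.K) ^ ((2 * a + x) * (2 * b + y)) = (-1 : W.K) ^ (x * y) := by
  rw [show (2 * a + x) * (2 * b + y) = 2 * (2 * a * b + a * y + x * b) + x * y by ring, pow_add,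
    pow_mul]
  simp

/-- The data of the product frame. -/
noncomputable def prodData {ι : Type w} {P : ι → Polarized 𝒱} (D : Y.Cycles) (E : Z.Cycles)
    (F : FrmData W P Y) (G : FrmData W P Z)
    (B : ∀ i j, PairData W (P i).X (P j).X) : FrmData W P (Y.prod Z) where
  f := extSum W F.f G.f
  I0 := (F.I0 × G.I0) ⊕ (Σ β : F.I1, Σ β' : G.I1, Fin (B (F.j β) (G.j β')).N)
  I1 := (F.I1 × G.I0) ⊕ (F.I0 × G.I1)
  fin0 := inferInstance
  fin1 := inferInstance
  e
    | .inl x => W.map (fst Y Z) (F.e x.1) * W.map (snd Y Z) (G.e x.2)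
    | .inr x => Psi W (F.n x.1) (G.n x.2.1) (F.g x.1) (G.g x.2.1) ((B _ _).v x.2.2)
  a
    | .inl x => F.a x.1 + G.a x.2
    | .inr x => F.c x.1 + G.c x.2.1 + (B (F.j x.1) (G.j x.2.1)).b
  d
    | .inl x => F.d x.1 * G.d x.2
    | .inr x => F.r x.1 * G.r x.2.1 * (B _ _).q x.2.2
  n
    | .inl x => W.map (fst Y Z) (F.n x.1) * W.map (snd Y Z) (G.e x.2)
    | .inr x => W.map (fst Y Z) (F.e x.1) * W.map (snd Y Z) (G.n x.2)
  m
    | .inl x => W.map (fst Y Z) (F.m x.1) * W.map (snd Y Z) (wop W Z E G.f (G.e x.2))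
    | .inr x => W.map (fst Y Z) (wop W Y D F.f (F.e x.1)) * W.map (snd Y Z) (G.m x.2)
  c
    | .inl x => F.c x.1 + G.a x.2
    | .inr x => F.a x.1 + G.c x.2
  j
    | .inl x => F.j x.1
    | .inr x => G.j x.2
  g
    | .inl x => fst Y Z ≫ F.g x.1
    | .inr x => snd Y Z ≫ G.g x.2
  r
    | .inl x => F.r x.1 * G.d x.2
    | .inr x => F.d x.1 * G.r x.2

section

variable {ι : Type w} {P : ι → Polarized 𝒱} {D : Y.Cycles} {E : Z.Cycles}
  {F : FrmData W P Y} {G : FrmData W P Z} {B : ∀ i j, PairData W (P i).X (P j).X}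
  (hF : Frm W P Y D F) (hG : Frm W P Z E G) (hM : ∀ i, Member W (P i).X)
  (hB : ∀ i j, PairBasis W (P i).X (P j).X (B i j))

/-- The Weyl operator on the product. -/
noncomputable abbrev wp (W : WeilCohomology.{u, v} ops) {Y Z : 𝒱.Obj} (D : Y.Cycles)
    (E : Z.Cycles) (f : Module.End W.K (W.H Y)) (f' : Module.End W.K (W.H Z)) :
    Module.End W.K (W.H (Y.prod Z)) :=
  wop W (Y.prod Z) (ops.pull (fst Y Z) D + ops.pull (snd Y Z) E) (extSum W f f')

include hF hG

lemma wp_tmul (a : W.H Y) (b : W.H Z) :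
    wp W D E F.f G.f (W.map (fst Y Z) a * W.map (snd Y Z) b) =
      W.map (fst Y Z) (wop W Y D F.f a) * W.map (snd Y Z) (wop W Z E G.f b) :=
  wop_prod hF.sl2 hG.sl2 hG.hD a b

/-- The Weyl operator on mixed classes. -/
lemma wp_psi (β : F.I1) (β' : G.I1) {v : W.H ((P (F.j β)).X.prod (P (G.j β')).X)}
    (hv : v ∈ TT W _ _) :
    wp W D E F.f G.f (Psi W (F.n β) (G.n β') (F.g β) (G.g β') v) =
      Psi W (F.m β) (G.m β') (F.g β) (G.g β') v := by
  rw [TT] at hv
  obtain ⟨i, hi⟩ := hG.m_mem β'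
  induction hv using Submodule.span_induction with
  | mem v hv =>
    obtain ⟨t, ht, s, hs, rfl⟩ := hv
    rw [psi_tmul (hG.n_mem β'), wp_tmul hF hG, hF.w_n β t ht, hG.w_n β' s hs, psi_tmul hi]
  | zero => simp only [map_zero]
  | add x y _ _ hx hy => simp only [map_add, hx, hy]
  | smul c x _ hx => simp only [map_smul, hx]

include hM

/-- The form of two external products, the second one mixed. -/
lemma form_odd {x : W.H Y} {y : W.H Z} {j : ℕ} (hy : y ∈ W.gr Z j) (β : F.I1)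
    {t : W.H (P (F.j β)).X} (ht : t ∈ transcendental W (P (F.j β)).X) (b : W.H Z) :
    ∃ s : W.K, W.tr _ (W.map (fst Y Z) x * W.map (snd Y Z) y *
      wp W D E F.f G.f (W.map (fst Y Z) (F.n β * W.map (F.g β) t) * W.map (snd Y Z) b)) =
      s * (W.tr Y (x * wop W Y D F.f (F.n β * W.map (F.g β) t)) *
        W.tr Z (y * wop W Z E G.f b)) := by
  obtain ⟨i, hi⟩ := hF.m_mem β
  refine ⟨_, form_mul hF.sl2 hG.sl2 hG.hD hy (i := 2 * i + (P (F.j β)).X.dim) ?_⟩
  rw [hF.w_n β t ht]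
  exact W.mul_mem (alg_gr hi) (W.map_mem _ ((hM _).mid ht))

omit hM in
lemma form_even {x : W.H Y} {y : W.H Z} {j : ℕ} (hy : y ∈ W.gr Z j) (α : F.I0) (b : W.H Z) :
    W.tr _ (W.map (fst Y Z) x * W.map (snd Y Z) y *
      wp W D E F.f G.f (W.map (fst Y Z) (F.e α) * W.map (snd Y Z) b)) =
      W.tr Y (x * wop W Y D F.f (F.e α)) * W.tr Z (y * wop W Z E G.f b) := by
  obtain ⟨i, hi⟩ := hF.we_mem α
  have h1 := form_mul (A := x) (B' := b) hF.sl2 hG.sl2 hG.hD hy (alg_gr hi)
  rw [neg_one_pow_even', one_mul] at h1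
  exact h1

omit hF hM in
lemma gr_e (α' : G.I0) : G.e α' ∈ W.gr Z (2 * G.a α') := alg_gr (hG.e_mem α')

omit hF in
lemma gr_n (β' : G.I1) {t : W.H (P (G.j β')).X} (ht : t ∈ transcendental W (P (G.j β')).X) :
    G.n β' * W.map (G.g β') t ∈ W.gr Z (2 * G.c β' + (P (G.j β')).X.dim) :=
  W.mul_mem (alg_gr (hG.n_mem β')) (W.map_mem _ ((hM _).mid ht))

/-- The form of two mixed classes. -/
lemma form_psi (β : F.I1) (β' : G.I1) {v v' : W.H ((P (F.j β)).X.prod (P (G.j β')).X)}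
    (hv : v ∈ TT W _ _) (hv' : v' ∈ TT W _ _) :
    W.tr _ (Psi W (F.n β) (G.n β') (F.g β) (G.g β') v *
      wp W D E F.f G.f (Psi W (F.n β) (G.n β') (F.g β) (G.g β') v')) =
      (((-1) ^ F.c β * F.r β : ℚ) : W.K) * (((-1) ^ G.c β' * G.r β' : ℚ) : W.K) *
        W.tr _ (v * v') := by
  rw [TT] at hv hv'
  induction hv using Submodule.span_induction with
  | mem v hv =>
    obtain ⟨t, ht, s, hs, rfl⟩ := hv
    induction hv' using Submodule.span_induction with
    | mem v' hv' =>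
      obtain ⟨t', ht', s', hs', rfl⟩ := hv'
      obtain ⟨i, hi⟩ := hF.m_mem β
      have h1 : wop W Y D F.f (F.n β * W.map (F.g β) t') ∈
          W.gr Y (2 * i + (P (F.j β)).X.dim) := by
        rw [hF.w_n β t' ht']
        exact W.mul_mem (alg_gr hi) (W.map_mem _ ((hM _).mid ht'))
      rw [psi_tmul (hG.n_mem β'), psi_tmul (hG.n_mem β'),
        form_mul hF.sl2 hG.sl2 hG.hD (gr_n hG hM β' hs) h1, hF.nn β t ht t' ht',
        hG.nn β' s hs s' hs', neg_one_pow_odd, tmul_mul ((hM _).mid hs) ((hM _).mid ht'),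
        map_smul, W.tr_prod, smul_eq_mul]
      ring
    | zero => simp only [map_zero, mul_zero]
    | add x y _ _ hx hy => simp only [map_add, mul_add, hx, hy]
    | smul c x _ hx =>
      simp only [map_smul, mul_smul_comm, hx, smul_eq_mul]
      ring
  | zero => simp only [map_zero, mul_zero, zero_mul]
  | add x y _ _ hx hy => simp only [map_add, mul_add, add_mul, hx, hy]
  | smul c x _ hx =>
    simp only [map_smul, smul_mul_assoc, hx, smul_eq_mul]
    ring

/-- Orthogonality of an external product and a mixed class. -/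
lemma form_psi_right {x : W.H Y} {y : W.H Z} {j : ℕ} (hy : y ∈ W.gr Z j) (β : F.I1) (β' : G.I1)
    (h0 : (∀ t ∈ transcendental W (P (F.j β)).X,
        W.tr Y (x * wop W Y D F.f (F.n β * W.map (F.g β) t)) = 0) ∨
      ∀ s ∈ transcendental W (P (G.j β')).X,
        W.tr Z (y * wop W Z E G.f (G.n β' * W.map (G.g β') s)) = 0)
    {v : W.H ((P (F.j β)).X.prod (P (G.j β')).X)} (hv : v ∈ TT W _ _) :
    W.tr _ (W.map (fst Y Z) x * W.map (snd Y Z) y *
      wp W D E F.f G.f (Psi W (F.n β) (G.n β') (F.g β) (G.g β') v)) = 0 := by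
  rw [TT] at hv
  induction hv using Submodule.span_induction with
  | mem v hv =>
    obtain ⟨t, ht, s, hs, rfl⟩ := hv
    rw [psi_tmul (hG.n_mem β')]
    obtain ⟨c, hc⟩ := form_odd hF hG hM (x := x) hy β ht (G.n β' * W.map (G.g β') s)
    rw [hc]
    rcases h0 with h0 | h0
    · rw [h0 t ht, zero_mul, mul_zero]
    · rw [h0 s hs, mul_zero, mul_zero]
  | zero => simp only [map_zero, mul_zero]
  | add x y _ _ hx hy => simp only [map_add, mul_add, hx, hy, add_zero]
  | smul c x _ hx => simp only [map_smul, mul_smul_comm, hx, smul_zero]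

omit hF hM in
/-- Orthogonality of a mixed class and an external product. -/
lemma form_psi_left {β : F.I1} {β' : G.I1} {b : W.H (Y.prod Z)}
    (h0 : ∀ t ∈ transcendental W (P (F.j β)).X, ∀ s ∈ transcendental W (P (G.j β')).X,
      W.tr _ (W.map (fst Y Z) (F.n β * W.map (F.g β) t) *
        W.map (snd Y Z) (G.n β' * W.map (G.g β') s) * b) = 0)
    {v : W.H ((P (F.j β)).X.prod (P (G.j β')).X)} (hv : v ∈ TT W _ _) :
    W.tr _ (Psi W (F.n β) (G.n β') (F.g β) (G.g β') v * b) = 0 := by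
  rw [TT] at hv
  induction hv using Submodule.span_induction with
  | mem v hv =>
    obtain ⟨t, ht, s, hs, rfl⟩ := hv
    rw [psi_tmul (hG.n_mem β')]
    exact h0 t ht s hs
  | zero => simp only [map_zero, zero_mul]
  | add x y _ _ hx hy => simp only [map_add, add_mul, hx, hy, add_zero]
  | smul c x _ hx => simp only [map_smul, smul_mul_assoc, hx, smul_zero]

end

end Pool.Agent.H281R3.HT
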